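import Pool.Agent.H383R3.HL.Main2

/-!
The Hall–Lang conjecture for integral points whose abscissa is close to a rational square
`a² / b²` with a small denominator `b`; `H = max |A| |B|`.

1. If `|b² x - a²| ≤ (a²/100)^(1/3)`, then `|x| ≤ 10⁵ (b⁵ H)²` and `|y| ≤ 10⁷ (b⁵ H)³`.
2. If `|b² x - a²| ≤ (a⁴/1000)^(1/5)`, then `|x| ≤ 2·10¹² (b¹⁷ H³)²` and `|y| ≤ 10¹⁹ (b¹⁷ H³)³`.
3. Hence the bound of the conjecture (with `K`, `M` depending only on `ε`) holds for all integral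
   points of all curves for which there are such `a`, `b` with `b¹⁰ ≤ |x|^(1-ε)` (first range) or
   `b³⁴ ≤ |x|^(1-ε)` (second range).
4. For `b = 1` the exponents 2 and 3 in part 1 are best possible.
-/

set_option autoImplicit false

namespace Pool.Agent.Results.MP_a1107e_nt.NearRationalSquares

theorem result :
    (∀ A B x y a b : ℤ, 4 * A ^ 3 + 27 * B ^ 2 ≠ 0 → y ^ 2 = x ^ 3 + A * x + B → 0 < b →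
      100 * |b ^ 2 * x - a ^ 2| ^ 3 ≤ a ^ 2 →
      |x| ≤ 10 ^ 5 * (b ^ 5 * max |A| |B|) ^ 2 ∧ |y| ≤ 10 ^ 7 * (b ^ 5 * max |A| |B|) ^ 3) ∧
    (∀ A B x y a b : ℤ, 4 * A ^ 3 + 27 * B ^ 2 ≠ 0 → y ^ 2 = x ^ 3 + A * x + B → 0 < b →
      1000 * |b ^ 2 * x - a ^ 2| ^ 5 ≤ a ^ 4 →
      |x| ≤ 2 * 10 ^ 12 * (b ^ 17 * max |A| |B| ^ 3) ^ 2 ∧
        |y| ≤ 10 ^ 19 * (b ^ 17 * max |A| |B| ^ 3) ^ 3) ∧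
    (∀ ε : ℝ, 0 < ε → ∃ K M : ℝ, 0 < K ∧ 0 < M ∧
      ∀ A B x y a b : ℤ, 4 * A ^ 3 + 27 * B ^ 2 ≠ 0 → y ^ 2 = x ^ 3 + A * x + B → 0 < b →
        ((100 * |b ^ 2 * x - a ^ 2| ^ 3 ≤ a ^ 2 ∧ (b : ℝ) ^ 10 ≤ |(x : ℝ)| ^ (1 - ε)) ∨
          (1000 * |b ^ 2 * x - a ^ 2| ^ 5 ≤ a ^ 4 ∧ (b : ℝ) ^ 34 ≤ |(x : ℝ)| ^ (1 - ε))) →
        max |(x : ℝ)| |(y : ℝ)| ≤ K * (max |(A : ℝ)| |(B : ℝ)|) ^ M) ∧
    (∀ n : ℤ, 1 ≤ n → 4 * (2 * n) ^ 3 + 27 * (1 : ℤ) ^ 2 ≠ 0 ∧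
      (n ^ 3 + 1) ^ 2 = (n ^ 2) ^ 3 + (2 * n) * (n ^ 2) + 1 ∧
      4 * n ^ 2 = (max |2 * n| |1|) ^ 2 ∧ (max |2 * n| |1|) ^ 3 < 8 * (n ^ 3 + 1)) :=
  ⟨Pool.Agent.H383R3.HL.near, Pool.Agent.H383R3.HL.near2, Pool.Agent.H383R3.HL.real_bound2,
    Pool.Agent.H383R3.HL.sharp⟩

end Pool.Agent.Results.MP_a1107e_nt.NearRationalSquares
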